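import Mathlib
import Pool.Agent.Y388.CF.Transversal

set_option autoImplicit false

/-!
# `c(F) ≤ k` if independent vertices of degree at most `k` meet all odd cycles of `F`

A graph `F` as in part (1) is composed in a tree-like way of pieces of `K_{1,t,t}`, glued along
connected sets of at most `k` vertices, and `c(K_{1,t,t}) ≤ 1`.
-/

namespace Pool.Agent.Results.MP_349e33_co.BoundedTransversal

open Pool.Agent.TH855

/-- (1) Let the finite graph `F` have an independent set `X` of vertices, each of degree at most
`k ≥ 1`, such that `F - X` is bipartite. Then `c(F) ≤ k`.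
(2) If `F` has a proper `3`-colouring such that every vertex of one of the colours has degree at
most `k ≥ 1` then `c(F) ≤ k`. In particular `c(F)` is at most the maximum degree of `F` for every
finite `3`-colourable graph `F` with at least one edge. -/
theorem result :
    (∀ {W : Type} [Fintype W] (F : SimpleGraph W) (X : Set W) (k : ℕ), 1 ≤ k →
      (∀ a ∈ X, ∀ b ∈ X, ¬ F.Adj a b) → (F.induce Xᶜ).Colorable 2 →
      (∀ x ∈ X, (F.neighborSet x).ncard ≤ k) → c F ≤ k) ∧
    (∀ {W : Type} [Fintype W] (F : SimpleGraph W) (C : F.Coloring (Fin 3)) (i : Fin 3) (k : ℕ),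
      1 ≤ k → (∀ x, C x = i → (F.neighborSet x).ncard ≤ k) → c F ≤ k) :=
  ⟨fun F X k hk hX hb hdeg =>
      Pool.Agent.Y388.CF.bounded_transversal F X k hk (fun a b ha hb => hX a ha b hb) hb hdeg,
    fun F C i k hk hdeg => Pool.Agent.Y388.CF.three_colourable F C i k hk hdeg⟩

end Pool.Agent.Results.MP_349e33_co.BoundedTransversal
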